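import Pool.Agent.helper50.NPT.All3

/-!
# MP_8f32d0_ag, Q1: the slopes `1 / d`, `(d - 1) / d` appear in every characteristic

For every prime `p`, every algebraically closed field `k` of characteristic `p` and every `g ≥ 3` there is a smooth projective connected
curve `C` over `k` (given by its function field `F`) of genus `g`, `p`-rank 0, `a`-number 1, whose smallest Newton slope is at most `1 / g`.
Definitions: `Pool/Agent/helper84/AN/Def.lean`, `Pool/Agent/helper50/NPT/Def.lean`.

DICTIONARY. `H = H¹(C, W O_C) = W(O(C - P - Q)) / (W(O(C - P)) + W(O(C - Q)))` is a free module of finite rank over `W(k)`, and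
`H ⊗ ℚ` is the part of slope `< 1` of `H¹_crys(C) ⊗ ℚ = H¹_crys(J(C)) ⊗ ℚ` (Serre, Bloch, Illusie). So the smallest slope `λ` of the Newton polygon of
`J(C)` is the supremum of the `m / n` with `F^n H ⊆ p^m H`, and `SlopeLE` says that `λ ≤ 1 / g`. As the `p`-rank is 0, `0 < λ`; `λ < 1 / 2`, so
its multiplicity is at most `g` (symmetry), and the first breakpoint is integral: `λ = 1 / g`, with multiplicity `g`. So `J(C)` has the Newton
polygon with the slopes `1 / g` and `(g - 1) / g`, `g` times each.

Q1. A symmetric polygon `ξ` all whose slopes are in `{0, 1/2, 1}` or of the form `1 / d`, `(d - 1) / d` is a direct sum of such polygons and of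
those of elliptic curves (its breakpoints are integral and it is symmetric), so it appears on its Torelli locus (first bullet of `What is
known`), for every `p`. So Q1 holds for these `ξ`, and the slopes `1 / d`, `(d - 1) / d` lie in an appearing polygon.
-/

namespace Pool.Agent.Results.MP_8f32d0_ag.SlopeOneOverG

open Pool.Agent.helper84.GC Pool.Agent.helper50.NP

theorem result (p : ℕ) [Fact p.Prime] (k : Type) [Field k] [IsAlgClosed k] [CharP k p] (g : ℕ) (hg : 3 ≤ g) :
    ∃ (F : Type) (_ : Field F) (_ : Algebra k F), IsFF k F ∧ IsGenus k F g ∧ PRankZero p k F ∧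
      aNumber k F = 1 ∧ SlopeLE p k F g :=
  every_field p k g hg

end Pool.Agent.Results.MP_8f32d0_ag.SlopeOneOverG
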